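import Mathlib
import Pool.Agent.R958.HamC

/-!
Bootstrap percolation on Hamming tori: union of independent initial configurations.
-/

set_option autoImplicit false

open Finset MeasureTheory ProbabilityTheory
open scoped ENNReal

namespace Pool.Agent.Helper76x.Ham

open Pool.Agent.R958.Ham

variable {n d : ℕ}

/-- union of two configurations -/
def uni (ω ω' : V n d → Bool) : V n d → Bool := fun x => ω x || ω' x

lemma siteLaw_or {a b : ℝ} (ha0 : 0 ≤ a) (ha1 : a ≤ 1) (hb0 : 0 ≤ b) (hb1 : b ≤ 1) :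
    ((siteLaw a).prod (siteLaw b)).map (fun z : Bool × Bool => z.1 || z.2) =
      siteLaw (1 - (1 - a) * (1 - b)) := by
  have h1 := siteLaw_prob ha0 ha1
  have h2 := siteLaw_prob hb0 hb1
  have hc0 : 0 ≤ 1 - (1 - a) * (1 - b) := by nlinarith
  have hc1 : 1 - (1 - a) * (1 - b) ≤ 1 := by nlinarith
  have h3 := siteLaw_prob hc0 hc1
  have hm : Measurable (fun z : Bool × Bool => z.1 || z.2) := measurable_of_countable _
  have hfalse : ((siteLaw a).prod (siteLaw b)).map (fun z : Bool × Bool => z.1 || z.2) {false} =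
      siteLaw (1 - (1 - a) * (1 - b)) {false} := by
    rw [Measure.map_apply hm (measurableSet_singleton _)]
    have e : (fun z : Bool × Bool => z.1 || z.2) ⁻¹' {false} = {false} ×ˢ {false} := by
      ext ⟨x, y⟩
      simp
    rw [e, Measure.prod_prod, siteLaw_false, siteLaw_false, siteLaw_false,
      ← ENNReal.ofReal_mul (by linarith)]
    congr 1
    ring
  have hmp : IsProbabilityMeasure
      (((siteLaw a).prod (siteLaw b)).map (fun z : Bool × Bool => z.1 || z.2)) :=
    Measure.isProbabilityMeasure_map hm.aemeasurable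
  have htrue : ((siteLaw a).prod (siteLaw b)).map (fun z : Bool × Bool => z.1 || z.2) {true} =
      siteLaw (1 - (1 - a) * (1 - b)) {true} := by
    have e : ({true} : Set Bool) = {false}ᶜ := by
      ext x; cases x <;> simp
    rw [e, prob_compl_eq_one_sub (measurableSet_singleton _),
      prob_compl_eq_one_sub (measurableSet_singleton _), hfalse]
  refine Measure.ext_of_singleton fun x => ?_
  cases x
  · exact hfalse
  · exact htrue

lemma law_or {a b : ℝ} (ha0 : 0 ≤ a) (ha1 : a ≤ 1) (hb0 : 0 ≤ b) (hb1 : b ≤ 1) :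
    ((law n d a).prod (law n d b)).map (fun z => uni z.1 z.2) =
      law n d (1 - (1 - a) * (1 - b)) := by
  have h1 := siteLaw_prob ha0 ha1
  have h2 := siteLaw_prob hb0 hb1
  have hc0 : 0 ≤ 1 - (1 - a) * (1 - b) := by nlinarith
  have hc1 : 1 - (1 - a) * (1 - b) ≤ 1 := by nlinarith
  have h3 := siteLaw_prob hc0 hc1
  have hm : Measurable (fun z : Bool × Bool => z.1 || z.2) := measurable_of_countable _
  have hu : Measurable (fun z : (V n d → Bool) × (V n d → Bool) => uni z.1 z.2) :=
    measurable_of_countable _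
  unfold law
  rw [← siteLaw_or ha0 ha1 hb0 hb1]
  have : ∀ _ : V n d, SigmaFinite (((siteLaw a).prod (siteLaw b)).map
      (fun z : Bool × Bool => z.1 || z.2)) := by
    intro _
    have : IsProbabilityMeasure
      (((siteLaw a).prod (siteLaw b)).map (fun z : Bool × Bool => z.1 || z.2)) :=
      Measure.isProbabilityMeasure_map hm.aemeasurable
    infer_instance
  rw [← Measure.pi_map_pi (μ := fun _ : V n d => (siteLaw a).prod (siteLaw b))
    (f := fun _ : V n d => fun z : Bool × Bool => z.1 || z.2) (fun _ => hm.aemeasurable)]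
  have h4 := measurePreserving_arrowProdEquivProdArrow Bool Bool (V n d)
    (fun _ => siteLaw a) (fun _ => siteLaw b)
  rw [← h4.map_eq, Measure.map_map hu h4.measurable]
  rfl


/-- increasing events -/
def Inc (A : Set (V n d → Bool)) : Prop :=
  ∀ ω ω' : V n d → Bool, (∀ x, ω x = true → ω' x = true) → ω ∈ A → ω' ∈ A

lemma law_prob {p : ℝ} (h0 : 0 ≤ p) (h1 : p ≤ 1) : IsProbabilityMeasure (law n d p) := by
  have := siteLaw_prob h0 h1
  unfold law; infer_instance

lemma law_or_apply {a b : ℝ} (ha0 : 0 ≤ a) (ha1 : a ≤ 1) (hb0 : 0 ≤ b) (hb1 : b ≤ 1)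
    (A : Set (V n d → Bool)) :
    law n d (1 - (1 - a) * (1 - b)) A =
      ((law n d a).prod (law n d b)) {z | uni z.1 z.2 ∈ A} := by
  have hu : Measurable (fun z : (V n d → Bool) × (V n d → Bool) => uni z.1 z.2) :=
    measurable_of_countable _
  rw [← law_or ha0 ha1 hb0 hb1, Measure.map_apply hu (Set.toFinite _).measurableSet]
  rfl

lemma compl_or_le {a b : ℝ} (ha0 : 0 ≤ a) (ha1 : a ≤ 1) (hb0 : 0 ≤ b) (hb1 : b ≤ 1)
    {A : Set (V n d → Bool)} (hA : Inc A) :
    law n d (1 - (1 - a) * (1 - b)) Aᶜ ≤ law n d a Aᶜ * law n d b Aᶜ := by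
  have h1 := law_prob (n := n) (d := d) ha0 ha1
  have h2 := law_prob (n := n) (d := d) hb0 hb1
  rw [law_or_apply ha0 ha1 hb0 hb1, ← Measure.prod_prod]
  apply measure_mono
  rintro ⟨ω, ω'⟩ h
  simp only [Set.mem_ofPred_eq, Set.mem_compl_iff] at h
  rw [Set.mem_prod]
  constructor
  · intro h3
    exact h (hA ω _ (fun x hx => by simp [uni, hx]) h3)
  · intro h3
    exact h (hA ω' _ (fun x hx => by simp [uni, hx]) h3)

lemma sprinkle {a b : ℝ} (ha0 : 0 ≤ a) (ha1 : a ≤ 1) (hb0 : 0 ≤ b) (hb1 : b ≤ 1)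
    {A B : Set (V n d → Bool)} {c : ℝ≥0∞}
    (h : ∀ ω ∈ A, c ≤ law n d b {ω' | uni ω ω' ∈ B}) :
    c * law n d a A ≤ law n d (1 - (1 - a) * (1 - b)) B := by
  have h1 := law_prob (n := n) (d := d) ha0 ha1
  have h2 := law_prob (n := n) (d := d) hb0 hb1
  rw [law_or_apply ha0 ha1 hb0 hb1, Measure.prod_apply (Set.toFinite _).measurableSet,
    ← setLIntegral_const]
  refine le_trans ?_ (setLIntegral_le_lintegral A _)
  apply setLIntegral_mono_ae (measurable_of_countable _).aemeasurable
  refine Filter.Eventually.of_forall fun ω hω => ?_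
  exact h ω hω

lemma law_mono {p q : ℝ} (hp0 : 0 ≤ p) (hpq : p ≤ q) (hq1 : q ≤ 1) {A : Set (V n d → Bool)}
    (hA : Inc A) : law n d p A ≤ law n d q A := by
  rcases hpq.eq_or_lt with rfl | hlt
  · exact le_rfl
  have hp1 : p < 1 := by linarith
  have h1p : 0 < 1 - p := by linarith
  set s := (q - p) / (1 - p) with hs
  have hs0 : 0 ≤ s := div_nonneg (by linarith) h1p.le
  have hs1 : s ≤ 1 := by rw [hs, div_le_one h1p]; linarith
  have e : q = 1 - (1 - p) * (1 - s) := by
    rw [hs]; field_simp; ring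
  have h2 := law_prob (n := n) (d := d) hs0 hs1
  have h3 := sprinkle (n := n) (d := d) hp0 hp1.le hs0 hs1 (A := A) (B := A) (c := 1) (by
    intro ω hω
    have : {ω' | uni ω ω' ∈ A} = Set.univ := by
      ext ω'
      simp only [Set.mem_ofPred_eq, Set.mem_univ, iff_true]
      exact hA ω _ (fun x hx => by simp [uni, hx]) hω
    rw [this, measure_univ])
  rw [one_mul, ← e] at h3
  exact h3

/-- strict monotonicity in the form needed below -/
lemma lt_of_half {p q : ℝ} (hp0 : 0 ≤ p) (hq1 : q ≤ 1) {A : Set (V n d → Bool)}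
    (hA : Inc A) (hne : (fun _ => true) ∈ A) (hp : 1 / 2 ≤ law n d p A)
    (hq : law n d q A ≤ 1 / 2) : q ≤ p := by
  by_contra hcon
  rw [not_le] at hcon
  have hp1 : p < 1 := by linarith
  have h1p : 0 < 1 - p := by linarith
  set s := (q - p) / (1 - p) with hs
  have hs0 : 0 < s := div_pos (by linarith) h1p
  have hs1 : s ≤ 1 := by rw [hs, div_le_one h1p]; linarith
  have e : q = 1 - (1 - p) * (1 - s) := by
    rw [hs]; field_simp; ring
  have i1 := law_prob (n := n) (d := d) hp0 hp1.le
  have i2 := law_prob (n := n) (d := d) hs0.le hs1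
  have i3 := law_prob (n := n) (d := d) (hp0.trans hcon.le) hq1
  have hmA : MeasurableSet A := (Set.toFinite _).measurableSet
  have h3 := compl_or_le (n := n) (d := d) hp0 hp1.le hs0.le hs1 hA
  rw [← e] at h3
  have h4 : law n d p Aᶜ ≤ 1 / 2 := by
    rw [prob_compl_eq_one_sub hmA]
    refine (tsub_le_tsub_left hp 1).trans ?_
    simp
  have h5 : 1 / 2 ≤ law n d q Aᶜ := by
    rw [prob_compl_eq_one_sub hmA]
    refine le_trans ?_ (tsub_le_tsub_left hq 1)
    simp
  have h6 : law n d s Aᶜ < 1 := by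
    rw [prob_compl_eq_one_sub hmA]
    have h7 : law n d s {ω | ∀ x ∈ (univ : Finset (V n d)), ω x = true} ≤ law n d s A := by
      apply measure_mono
      intro ω hω
      have : ω = fun _ => true := funext fun x => hω x (mem_univ _)
      rw [this]; exact hne
    rw [law_all hs0.le hs1] at h7
    have h8 : 0 < law n d s A := lt_of_lt_of_le
      (ENNReal.pow_pos (ENNReal.ofReal_pos.2 hs0) _) h7
    exact ENNReal.sub_lt_self (by simp) (by simp) h8.ne'
  have h9 : law n d p Aᶜ * law n d s Aᶜ < 1 / 2 := by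
    rcases eq_or_ne (law n d p Aᶜ) 0 with h0 | h0
    · rw [h0]; simp
    · calc law n d p Aᶜ * law n d s Aᶜ < law n d p Aᶜ * 1 :=
          ENNReal.mul_lt_mul_right h0 (measure_ne_top _ _) h6
        _ ≤ 1 / 2 := by rw [mul_one]; exact h4
  exact absurd (h5.trans h3) (not_le.2 h9)

lemma step_mono {θ : ℕ} {ω ω' : V n d → Bool} (h : ∀ x, ω x = true → ω' x = true) :
    ∀ x, step θ ω x = true → step θ ω' x = true := by
  intro x hx
  unfold step at *
  rw [Bool.or_eq_true, decide_eq_true_iff] at *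
  rcases hx with hx | hx
  · exact Or.inl (h x hx)
  · right
    refine hx.trans (card_le_card ?_)
    intro y hy
    rw [mem_filter] at *
    exact ⟨hy.1, hy.2.1, h y hy.2.2⟩

lemma final_mono {θ : ℕ} {ω ω' : V n d → Bool} (h : ∀ x, ω x = true → ω' x = true) {x : V n d}
    (hx : FinalOpen θ ω x) : FinalOpen θ ω' x := by
  obtain ⟨j, hj⟩ := hx
  refine ⟨j, ?_⟩
  have key : ∀ j : ℕ, ∀ x, (step θ)^[j] ω x = true → (step θ)^[j] ω' x = true := by
    intro j
    induction j with
    | zero => exact h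
    | succ j ih =>
      rw [Function.iterate_succ']
      exact step_mono ih
  exact key j x hj

lemma inc_subgraph (θ i : ℕ) : Inc {ω : V n d → Bool | SubgraphOpen θ i ω} := by
  rintro ω ω' h ⟨J, hJ, a, ha⟩
  exact ⟨J, hJ, a, fun x hx => final_mono h (ha x hx)⟩

end Pool.Agent.Helper76x.Ham
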