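import Mathlib
import Pool.Agent.Helper76x.HamCoupl

/-!
Bootstrap percolation on Hamming tori of dimension four, threshold three: spreading from a plane.
-/

set_option autoImplicit false

open Finset MeasureTheory ProbabilityTheory
open scoped ENNReal

namespace Pool.Agent.Helper76x.Ham

open Pool.Agent.R958.Ham

variable {n : ℕ}

/-- a vertex of the four dimensional torus with relabelled coordinates -/
def qt (σ : Equiv.Perm (Fin 4)) (x y a b : Fin n) : V n 4 := fun k => ![x, y, a, b] (σ k)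

lemma qt_ap0 (σ : Equiv.Perm (Fin 4)) (x y a b : Fin n) : qt σ x y a b (σ.symm 0) = x := by
  simp [qt]
lemma qt_ap1 (σ : Equiv.Perm (Fin 4)) (x y a b : Fin n) : qt σ x y a b (σ.symm 1) = y := by
  simp [qt]
lemma qt_ap2 (σ : Equiv.Perm (Fin 4)) (x y a b : Fin n) : qt σ x y a b (σ.symm 2) = a := by
  simp [qt]
lemma qt_ap3 (σ : Equiv.Perm (Fin 4)) (x y a b : Fin n) : qt σ x y a b (σ.symm 3) = b := by
  simp [qt]

lemma qt_inj {σ : Equiv.Perm (Fin 4)} {x y a b x' y' a' b' : Fin n}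
    (h : qt σ x y a b = qt σ x' y' a' b') : x = x' ∧ y = y' ∧ a = a' ∧ b = b' := by
  refine ⟨?_, ?_, ?_, ?_⟩
  · have := congrFun h (σ.symm 0); rwa [qt_ap0, qt_ap0] at this
  · have := congrFun h (σ.symm 1); rwa [qt_ap1, qt_ap1] at this
  · have := congrFun h (σ.symm 2); rwa [qt_ap2, qt_ap2] at this
  · have := congrFun h (σ.symm 3); rwa [qt_ap3, qt_ap3] at this

lemma eq_qt (σ : Equiv.Perm (Fin 4)) (v : V n 4) :
    v = qt σ (v (σ.symm 0)) (v (σ.symm 1)) (v (σ.symm 2)) (v (σ.symm 3)) := by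
  funext k
  obtain ⟨j, rfl⟩ := σ.symm.surjective k
  unfold qt
  rw [Equiv.apply_symm_apply]
  fin_cases j <;> simp

lemma dist_qt (σ : Equiv.Perm (Fin 4)) (x y a b x' y' a' b' : Fin n) :
    hammingDist (qt σ x y a b) (qt σ x' y' a' b') =
      hammingDist (![x, y, a, b] : Fin 4 → Fin n) ![x', y', a', b'] := by
  unfold hammingDist
  apply card_bij (fun k _ => σ k)
  · intro k hk
    rw [mem_filter] at *
    exact ⟨mem_univ _, hk.2⟩
  · intro k _ l _ h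
    exact σ.injective h
  · intro k hk
    rw [mem_filter] at hk
    refine ⟨σ.symm k, ?_, by simp⟩
    rw [mem_filter]
    refine ⟨mem_univ _, ?_⟩
    simpa [qt] using hk.2

lemma d0 {σ : Equiv.Perm (Fin 4)} {x x' y a b : Fin n} (h : x ≠ x') :
    hammingDist (qt σ x y a b) (qt σ x' y a b) = 1 := by
  rw [dist_qt]
  unfold hammingDist
  rw [card_eq_one]
  refine ⟨0, ?_⟩
  ext i
  fin_cases i <;> simp [h]

lemma d1 {σ : Equiv.Perm (Fin 4)} {x y y' a b : Fin n} (h : y ≠ y') :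
    hammingDist (qt σ x y a b) (qt σ x y' a b) = 1 := by
  rw [dist_qt]
  unfold hammingDist
  rw [card_eq_one]
  refine ⟨1, ?_⟩
  ext i
  fin_cases i <;> simp [h]

lemma d2 {σ : Equiv.Perm (Fin 4)} {x y a a' b : Fin n} (h : a ≠ a') :
    hammingDist (qt σ x y a b) (qt σ x y a' b) = 1 := by
  rw [dist_qt]
  unfold hammingDist
  rw [card_eq_one]
  refine ⟨2, ?_⟩
  ext i
  fin_cases i <;> simp [h]

lemma d3 {σ : Equiv.Perm (Fin 4)} {x y a b b' : Fin n} (h : b ≠ b') :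
    hammingDist (qt σ x y a b) (qt σ x y a b') = 1 := by
  rw [dist_qt]
  unfold hammingDist
  rw [card_eq_one]
  refine ⟨3, ?_⟩
  ext i
  fin_cases i <;> simp [h]

lemma n0 {σ : Equiv.Perm (Fin 4)} {x y a b x' y' a' b' : Fin n} (h : x ≠ x') :
    qt σ x y a b ≠ qt σ x' y' a' b' := fun he => h (qt_inj he).1
lemma n1 {σ : Equiv.Perm (Fin 4)} {x y a b x' y' a' b' : Fin n} (h : y ≠ y') :
    qt σ x y a b ≠ qt σ x' y' a' b' := fun he => h (qt_inj he).2.1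
lemma n2 {σ : Equiv.Perm (Fin 4)} {x y a b x' y' a' b' : Fin n} (h : a ≠ a') :
    qt σ x y a b ≠ qt σ x' y' a' b' := fun he => h (qt_inj he).2.2.1
lemma n3 {σ : Equiv.Perm (Fin 4)} {x y a b x' y' a' b' : Fin n} (h : b ≠ b') :
    qt σ x y a b ≠ qt σ x' y' a' b' := fun he => h (qt_inj he).2.2.2

variable {ω : V n 4 → Bool} {σ : Equiv.Perm (Fin 4)} {a b : Fin n}

lemma line_step (hP : ∀ x y, FinalOpen 3 ω (qt σ x y a b)) {a' b' x1 x2 y : Fin n} (ha : a' ≠ a)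
    (hb : b' ≠ b) (hx : x1 ≠ x2) (hu : FinalOpen 3 ω (qt σ x1 y a' b))
    (hw : FinalOpen 3 ω (qt σ x2 y a' b')) (x : Fin n) : FinalOpen 3 ω (qt σ x y a' b) := by
  have h2 : FinalOpen 3 ω (qt σ x2 y a' b) :=
    final_of_three (n2 ha.symm) (n2 ha.symm) (n3 hb.symm) (d2 ha) (d0 hx.symm) (d3 hb.symm)
      (hP x2 y) hu hw
  by_cases e1 : x = x1
  · rw [e1]; exact hu
  by_cases e2 : x = x2
  · rw [e2]; exact h2
  exact final_of_three (n2 ha.symm) (n2 ha.symm) (n0 hx) (d2 ha) (d0 e1) (d0 e2) (hP x y) hu h2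

lemma plane_step (hP : ∀ x y, FinalOpen 3 ω (qt σ x y a b)) {a' b' x' y y' : Fin n} (ha : a' ≠ a)
    (hb : b' ≠ b) (hy : y' ≠ y) (hL : ∀ x, FinalOpen 3 ω (qt σ x y a' b))
    (hw : FinalOpen 3 ω (qt σ x' y' a' b')) (x z : Fin n) : FinalOpen 3 ω (qt σ x z a' b) := by
  have h1 : FinalOpen 3 ω (qt σ x' y' a' b) :=
    final_of_three (n2 ha.symm) (n2 ha.symm) (n3 hb.symm) (d2 ha) (d1 hy) (d3 hb.symm)
      (hP x' y') (hL x') hw
  have h2 : ∀ x, FinalOpen 3 ω (qt σ x y' a' b) := by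
    intro x
    by_cases e1 : x = x'
    · rw [e1]; exact h1
    exact final_of_three (n2 ha.symm) (n2 ha.symm) (n1 hy.symm) (d2 ha) (d1 hy) (d0 e1)
      (hP x y') (hL x) h1
  by_cases e1 : z = y
  · rw [e1]; exact hL x
  by_cases e2 : z = y'
  · rw [e2]; exact h2 x
  exact final_of_three (n2 ha.symm) (n2 ha.symm) (n1 hy.symm) (d2 ha) (d1 e1) (d1 e2)
      (hP x z) (hL x) (h2 x)

lemma three_planes {a1 a2 a3 : Fin n} (h12 : a1 ≠ a2) (h13 : a1 ≠ a3) (h23 : a2 ≠ a3)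
    (hP1 : ∀ x y, FinalOpen 3 ω (qt σ x y a1 b)) (hP2 : ∀ x y, FinalOpen 3 ω (qt σ x y a2 b))
    (hP3 : ∀ x y, FinalOpen 3 ω (qt σ x y a3 b)) (x y c : Fin n) :
    FinalOpen 3 ω (qt σ x y c b) := by
  by_cases e1 : c = a1
  · rw [e1]; exact hP1 x y
  by_cases e2 : c = a2
  · rw [e2]; exact hP2 x y
  by_cases e3 : c = a3
  · rw [e3]; exact hP3 x y
  exact final_of_three (n2 h12) (n2 h13) (n2 h23) (d2 e1) (d2 e2) (d2 e3) (hP1 x y) (hP2 x y)
    (hP3 x y)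

/-- two hyperplanes and one more vertex fill the torus -/
lemma fill (h3 : ∀ x y c, FinalOpen 3 ω (qt σ x y c b)) (h2 : ∀ x y c, FinalOpen 3 ω (qt σ x y a c))
    {x0 y0 a0 b0 : Fin n} (ha : a0 ≠ a) (hb : b0 ≠ b) (hu : FinalOpen 3 ω (qt σ x0 y0 a0 b0))
    (v : V n 4) : FinalOpen 3 ω v := by
  have s0 : ∀ x, FinalOpen 3 ω (qt σ x y0 a0 b0) := by
    intro x
    by_cases e : x = x0
    · rw [e]; exact hu
    exact final_of_three (n2 ha.symm) (n2 ha.symm) (n3 hb.symm) (d2 ha) (d3 hb) (d0 e) (h2 x y0 b0)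
      (h3 x y0 a0) hu
  have s1 : ∀ x y, FinalOpen 3 ω (qt σ x y a0 b0) := by
    intro x y
    by_cases e : y = y0
    · rw [e]; exact s0 x
    exact final_of_three (n2 ha.symm) (n2 ha.symm) (n3 hb.symm) (d2 ha) (d3 hb) (d1 e) (h2 x y b0)
      (h3 x y a0) (s0 x)
  have s2 : ∀ x y c, FinalOpen 3 ω (qt σ x y c b0) := by
    intro x y c
    by_cases e : c = a0
    · rw [e]; exact s1 x y
    by_cases e' : c = a
    · rw [e']; exact h2 x y b0
    exact final_of_three (n2 (Ne.symm e')) (n2 ha.symm) (n3 hb.symm) (d2 e') (d3 hb) (d2 e)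
      (h2 x y b0) (h3 x y c) (s1 x y)
  have s3 : ∀ x y c f, FinalOpen 3 ω (qt σ x y c f) := by
    intro x y c f
    by_cases e : f = b0
    · rw [e]; exact s2 x y c
    by_cases e' : c = a
    · rw [e']; exact h2 x y f
    by_cases e'' : f = b
    · rw [e'']; exact h3 x y c
    exact final_of_three (n2 (Ne.symm e')) (n2 (Ne.symm e')) (n3 hb.symm) (d2 e') (d3 e'') (d3 e)
      (h2 x y f) (h3 x y c) (s2 x y c)
  rw [eq_qt σ v]
  exact s3 _ _ _ _

/-- lower and upper half -/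
def Lo (n : ℕ) : Finset (Fin n) := univ.filter fun x => x.val < n / 2
/-- upper half -/
def Hi (n : ℕ) : Finset (Fin n) := univ.filter fun x => ¬ x.val < n / 2

lemma lo_hi {x y : Fin n} (hx : x ∈ Lo n) (hy : y ∈ Hi n) : x ≠ y := by
  unfold Lo Hi at *
  rw [mem_filter] at hx hy
  rintro rfl
  exact hy.2 hx.2

/-- the event that a line opens -/
def SL (σ : Equiv.Perm (Fin 4)) (b : Fin n) (i : Fin n × Fin n) (ω : V n 4 → Bool) : Prop :=
  (∃ x ∈ Lo n, ω (qt σ x i.2 i.1 b) = true) ∧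
    ∃ z ∈ Hi n ×ˢ (univ.erase b), ω (qt σ z.1 i.2 i.1 z.2) = true

/-- the event that there is a vertex for the second line -/
def SB (σ : Equiv.Perm (Fin 4)) (b a' : Fin n) (ω : V n 4 → Bool) : Prop :=
  ∃ z ∈ (univ : Finset (Fin n)) ×ˢ Hi n ×ˢ (univ.erase b), ω (qt σ z.1 z.2.1 a' z.2.2) = true

/-- the good event for one direction -/
def G1 (σ : Equiv.Perm (Fin 4)) (a b : Fin n) (ω : V n 4 → Bool) : Prop :=
  (∃ i ∈ (Lo n).erase a ×ˢ Lo n, SL σ b i ω) ∧ (∃ i ∈ (Hi n).erase a ×ˢ Lo n, SL σ b i ω) ∧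
    ∀ a' : Fin n, SB σ b a' ω

lemma plane_of {ω ω' : V n 4 → Bool} (hω : ∀ x, ω' x = true → FinalOpen 3 ω x)
    (hP : ∀ x y, FinalOpen 3 ω (qt σ x y a b)) {i : Fin n × Fin n} (hi : i.1 ≠ a)
    (hi2 : i.2 ∈ Lo n) (hS : SL σ b i ω') (hB : SB σ b i.1 ω') (x y : Fin n) :
    FinalOpen 3 ω (qt σ x y i.1 b) := by
  obtain ⟨⟨x1, hx1, h1⟩, z, hz, h2⟩ := hS
  obtain ⟨w, hw, h3⟩ := hB
  rw [mem_product, mem_erase] at hz
  rw [mem_product, mem_product, mem_erase] at hw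
  have hL := line_step hP hi hz.2.1 (lo_hi hx1 hz.1) (hω _ h1) (hω _ h2)
  exact plane_step hP hi hw.2.2.1 (lo_hi hi2 hw.2.1).symm hL (hω _ h3) x y

lemma hyper_of {ω ω' : V n 4 → Bool} (hω : ∀ x, ω' x = true → FinalOpen 3 ω x)
    (hP : ∀ x y, FinalOpen 3 ω (qt σ x y a b)) (hG : G1 σ a b ω') (x y c : Fin n) :
    FinalOpen 3 ω (qt σ x y c b) := by
  obtain ⟨⟨i, hi, hS⟩, ⟨j, hj, hS'⟩, hB⟩ := hG
  rw [mem_product, mem_erase] at hi hj
  have h1 := plane_of hω hP hi.1.1 hi.2 hS (hB _)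
  have h2 := plane_of hω hP hj.1.1 hj.2 hS' (hB _)
  exact three_planes hi.1.1.symm hj.1.1.symm (lo_hi hi.1.2 hj.1.2) hP h1 h2 x y c

lemma qt_swap (σ : Equiv.Perm (Fin 4)) (x y a b : Fin n) :
    qt (σ.trans (Equiv.swap 2 3)) x y b a = qt σ x y a b := by
  funext k
  unfold qt
  simp only [Equiv.trans_apply]
  generalize σ k = j
  fin_cases j
  · have : (Equiv.swap (2 : Fin 4) 3) 0 = 0 := by decide
    simp [this]
  · have : (Equiv.swap (2 : Fin 4) 3) 1 = 1 := by decide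
    simp [this]
  · simp
  · simp

/-- the good event -/
def Good (σ : Equiv.Perm (Fin 4)) (a b : Fin n) (ω : V n 4 → Bool) : Prop :=
  G1 σ a b ω ∧ G1 (σ.trans (Equiv.swap 2 3)) b a ω

theorem full_of {ω ω' : V n 4 → Bool} (hω : ∀ x, ω' x = true → FinalOpen 3 ω x)
    (hP : ∀ x y, FinalOpen 3 ω (qt σ x y a b)) (hG : Good σ a b ω') (v : V n 4) :
    FinalOpen 3 ω v := by
  have h3 := hyper_of hω hP hG.1
  have h2 : ∀ x y c, FinalOpen 3 ω (qt σ x y a c) := by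
    intro x y c
    have := hyper_of (σ := σ.trans (Equiv.swap 2 3)) hω (fun x y => by rw [qt_swap]; exact hP x y)
      hG.2 x y c
    rwa [qt_swap] at this
  obtain ⟨⟨i, hi, hS⟩, _⟩ := hG.1
  obtain ⟨⟨x1, hx1, h1⟩, z, hz, h4⟩ := hS
  rw [mem_product, mem_erase] at hi hz
  exact fill h3 h2 hi.1.1 hz.2.1 (hω _ h4) v

/-- every plane is one of the planes above -/
lemma plane_form {ω : V n 4 → Bool} (h : SubgraphOpen 3 2 ω) :
    ∃ (σ : Equiv.Perm (Fin 4)) (a b : Fin n), ∀ x y, FinalOpen 3 ω (qt σ x y a b) := by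
  obtain ⟨J, hJ, p, hp⟩ := h
  have key : ∀ J : Finset (Fin 4), J.card = 2 → ∃ σ : Equiv.Perm (Fin 4),
      ∀ k, k ∉ J → σ k = 2 ∨ σ k = 3 := by
    decide
  obtain ⟨σ, hσ⟩ := key J hJ
  refine ⟨σ, p (σ.symm 2), p (σ.symm 3), fun x y => hp _ fun k hk => ?_⟩
  rcases hσ k hk with h | h
  · unfold qt
    rw [h, ← h, Equiv.symm_apply_apply]
    simp [h]
  · unfold qt
    rw [h, ← h, Equiv.symm_apply_apply]
    simp [h]

end Pool.Agent.Helper76x.Ham
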