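import Mathlib
import Pool.Agent.Helper76x.HamDet

/-!
Bootstrap percolation on Hamming tori of dimension four, threshold three: probabilities.
-/

set_option autoImplicit false

open Finset MeasureTheory ProbabilityTheory
open scoped ENNReal

namespace Pool.Agent.Helper76x.Ham

open Pool.Agent.R958.Ham

variable {n d : ℕ} {p : ℝ}

/-- `1 - (1-p)^k` is the probability that a set with `k` elements contains an open vertex -/
lemma law_noneopen (h0 : 0 ≤ p) (h1 : p ≤ 1) (K : Finset (V n d)) :
    (law n d p).real {ω | ∀ x ∈ K, ω x ≠ true} = (1 - p) ^ K.card := by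
  have h := law_none (n := n) (d := d) h0 h1 (T := K) (K := fun x => {x}) (m := 1)
    (fun _ _ => card_singleton _) (fun b _ b' _ h => by simpa using h)
  have e : {ω : V n d → Bool | ∀ x ∈ K, ω x ≠ true} =
      {ω | ∀ b ∈ K, ¬ ∀ x ∈ ({b} : Finset (V n d)), ω x = true} := by
    ext ω; simp
  rw [measureReal_def, e, h, ENNReal.toReal_pow, pow_one,
    ENNReal.toReal_sub_of_le (by simpa using ENNReal.ofReal_le_ofReal h1) (by simp)]
  rw [ENNReal.toReal_ofReal h0]
  simp

lemma law_someopen (h0 : 0 ≤ p) (h1 : p ≤ 1) (K : Finset (V n d)) :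
    (law n d p).real {ω | ∃ x ∈ K, ω x = true} = 1 - (1 - p) ^ K.card := by
  have i1 := law_prob (n := n) (d := d) h0 h1
  rw [← law_noneopen h0 h1 K, ← probReal_compl_eq_one_sub (Set.toFinite _).measurableSet]
  congr 1
  ext ω
  simp

lemma indep_mul (h0 : 0 ≤ p) (h1 : p ≤ 1) {S T : Finset (V n d)} (hST : Disjoint S T)
    {A B : (V n d → Bool) → Prop} (hA : Dep S A) (hB : Dep T B) :
    (law n d p).real {ω | A ω ∧ B ω} = (law n d p).real {ω | A ω} * (law n d p).real {ω | B ω} := by
  have i1 := siteLaw_prob h0 h1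
  have hind : IndepFun A B (law n d p) := Dep.indep (m := fun _ => siteLaw p) hST hA hB
  rw [indepFun_iff_measure_inter_preimage_eq_mul] at hind
  have h3 := hind {True} {True} (measurableSet_singleton _) (measurableSet_singleton _)
  have e1 : A ⁻¹' {True} = {ω | A ω} := by ext ω; simp
  have e2 : B ⁻¹' {True} = {ω | B ω} := by ext ω; simp
  rw [e1, e2] at h3
  rw [measureReal_def, measureReal_def, measureReal_def, ← ENNReal.toReal_mul, ← h3]
  rfl

lemma indep_family {ι : Type*} (h0 : 0 ≤ p) (h1 : p ≤ 1) {s : ℝ}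
    {D : ι → Finset (V n d)} {E : ι → (V n d → Bool) → Prop} (T : Finset ι)
    (hdep : ∀ i ∈ T, Dep (D i) (E i)) (hdisj : ∀ i ∈ T, ∀ j ∈ T, i ≠ j → Disjoint (D i) (D j))
    (hs : ∀ i ∈ T, (law n d p).real {ω | E i ω} ≤ s) :
    (law n d p).real {ω | ∀ i ∈ T, E i ω} ≤ s ^ T.card := by
  classical
  have i1 := law_prob (n := n) (d := d) h0 h1
  induction T using Finset.induction_on with
  | empty => simp
  | insert b T hb ih =>
    have ih' := ih (fun b hb => hdep b (mem_insert_of_mem hb))
      (fun b hb b' hb' => hdisj b (mem_insert_of_mem hb) b' (mem_insert_of_mem hb'))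
      (fun b hb => hs b (mem_insert_of_mem hb))
    have d2 : Dep (T.biUnion D) (fun ω : V n d → Bool => ∀ i ∈ T, E i ω) := by
      intro ω ω' h
      rw [eq_iff_iff]
      refine forall₂_congr fun b hb' => ?_
      rw [hdep b (mem_insert_of_mem hb') ω ω' fun e he => h e (mem_biUnion.2 ⟨b, hb', he⟩)]
    have hdis : Disjoint (D b) (T.biUnion D) := by
      rw [disjoint_biUnion_right]
      intro b' hb'
      exact hdisj b (mem_insert_self _ _) b' (mem_insert_of_mem hb') (fun h => hb (h ▸ hb'))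
    have e3 : {ω : V n d → Bool | ∀ i ∈ insert b T, E i ω} = {ω | E b ω ∧ ∀ i ∈ T, E i ω} := by
      ext ω; simp
    rw [e3, indep_mul h0 h1 hdis (hdep b (mem_insert_self _ _)) d2, card_insert_of_notMem hb,
      pow_succ, mul_comm]
    have hb1 := hs b (mem_insert_self _ _)
    exact mul_le_mul ih' hb1 measureReal_nonneg
      (pow_nonneg (measureReal_nonneg.trans hb1) _)

lemma dep_ex (K : Finset (V n d)) : Dep K (fun ω : V n d → Bool => ∃ x ∈ K, ω x = true) := by
  intro ω ω' h
  rw [eq_iff_iff]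
  constructor
  · rintro ⟨x, hx, h'⟩; exact ⟨x, hx, by rw [← h x hx]; exact h'⟩
  · rintro ⟨x, hx, h'⟩; exact ⟨x, hx, by rw [h x hx]; exact h'⟩

lemma card_Lo : (Lo n).card = n / 2 := by
  unfold Lo
  have := Fin.card_filter_val_lt (n := n) (m := n / 2)
  rw [this]
  omega

lemma card_Hi : (Hi n).card = n - n / 2 := by
  have h := card_filter_add_card_filter_not (s := (univ : Finset (Fin n)))
    (fun x : Fin n => x.val < n / 2)
  have h2 := card_Lo (n := n)
  unfold Lo at h2
  unfold Hi
  rw [card_univ, Fintype.card_fin, h2] at h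
  omega

section four

variable {σ : Equiv.Perm (Fin 4)} {a b : Fin n}

lemma law_SL (h0 : 0 ≤ p) (h1 : p ≤ 1) (i : Fin n × Fin n) :
    (law n 4 p).real {ω | SL σ b i ω} =
      (1 - (1 - p) ^ (n / 2)) * (1 - (1 - p) ^ ((n - n / 2) * (n - 1))) := by
  classical
  set K1 : Finset (V n 4) := (Lo n).image fun x => qt σ x i.2 i.1 b with hK1
  set K2 : Finset (V n 4) := (Hi n ×ˢ (univ.erase b)).image fun z => qt σ z.1 i.2 i.1 z.2 with hK2
  have c1 : K1.card = n / 2 := by
    rw [hK1, card_image_of_injective _ (fun x y h => (qt_inj h).1), card_Lo]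
  have c2 : K2.card = (n - n / 2) * (n - 1) := by
    rw [hK2, card_image_of_injective, card_product, card_Hi, card_erase_of_mem (mem_univ _),
      card_univ, Fintype.card_fin]
    intro x y h
    have := qt_inj h
    exact Prod.ext this.1 this.2.2.2
  have hdis : Disjoint K1 K2 := by
    rw [disjoint_left]
    intro v hv hv'
    rw [hK1, mem_image] at hv
    rw [hK2, mem_image] at hv'
    obtain ⟨x, hx, rfl⟩ := hv
    obtain ⟨z, hz, h⟩ := hv'
    rw [mem_product] at hz
    exact lo_hi hx hz.1 (qt_inj h).1.symm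
  have e : {ω : V n 4 → Bool | SL σ b i ω} =
      {ω | (∃ x ∈ K1, ω x = true) ∧ ∃ x ∈ K2, ω x = true} := by
    ext ω
    simp only [SL, hK1, hK2, Set.mem_ofPred_eq, mem_image, exists_exists_and_eq_and]
  rw [e, indep_mul h0 h1 hdis (dep_ex K1) (dep_ex K2), law_someopen h0 h1, law_someopen h0 h1,
    c1, c2]

lemma law_SB (h0 : 0 ≤ p) (h1 : p ≤ 1) (a' : Fin n) :
    (law n 4 p).real {ω | ¬ SB σ b a' ω} = (1 - p) ^ (n * ((n - n / 2) * (n - 1))) := by
  classical
  set K : Finset (V n 4) := ((univ : Finset (Fin n)) ×ˢ Hi n ×ˢ (univ.erase b)).image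
    fun z => qt σ z.1 z.2.1 a' z.2.2 with hK
  have c : K.card = n * ((n - n / 2) * (n - 1)) := by
    rw [hK, card_image_of_injective, card_product, card_product, card_Hi,
      card_erase_of_mem (mem_univ _), card_univ, Fintype.card_fin]
    intro x y h
    have := qt_inj h
    exact Prod.ext this.1 (Prod.ext this.2.1 this.2.2.2)
  have e : {ω : V n 4 → Bool | ¬ SB σ b a' ω} = {ω | ∀ x ∈ K, ω x ≠ true} := by
    ext ω
    simp only [SB, hK, Set.mem_ofPred_eq, mem_image, not_exists, not_and, forall_exists_index,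
      and_imp, forall_apply_eq_imp_iff₂, ne_eq]
  rw [e, law_noneopen h0 h1, c]

lemma law_noSL (h0 : 0 ≤ p) (h1 : p ≤ 1) (T : Finset (Fin n × Fin n)) :
    (law n 4 p).real {ω | ∀ i ∈ T, ¬ SL σ b i ω} ≤
      (1 - (1 - (1 - p) ^ (n / 2)) * (1 - (1 - p) ^ ((n - n / 2) * (n - 1)))) ^ T.card := by
  classical
  have i1 := law_prob (n := n) (d := 4) h0 h1
  refine indep_family h0 h1 (D := fun i => univ.filter fun v => v (σ.symm 2) = i.1 ∧
    v (σ.symm 1) = i.2) T ?_ ?_ ?_
  · intro i _ ω ω' h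
    have h' : ∀ x c, ω (qt σ x i.2 i.1 c) = ω' (qt σ x i.2 i.1 c) := by
      intro x c
      apply h
      rw [mem_filter]
      exact ⟨mem_univ _, qt_ap2 _ _ _ _ _, qt_ap1 _ _ _ _ _⟩
    simp only [SL, h']
  · intro i _ j _ hij
    rw [disjoint_left]
    intro v hv hv'
    rw [mem_filter] at hv hv'
    apply hij
    exact Prod.ext (hv.2.1.symm.trans hv'.2.1) (hv.2.2.symm.trans hv'.2.2)
  · intro i _
    rw [← law_SL (σ := σ) (b := b) h0 h1 i,
      ← probReal_compl_eq_one_sub (Set.toFinite _).measurableSet]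
    rfl

end four

end Pool.Agent.Helper76x.Ham
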