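import Mathlib
import Pool.Agent.Helper76x.HamProb

/-!
Bootstrap percolation on Hamming tori of dimension four, threshold three: numerical bounds.
-/

set_option autoImplicit false

open Finset MeasureTheory ProbabilityTheory
open scoped ENNReal

namespace Pool.Agent.Helper76x.Ham

open Pool.Agent.R958.Ham

variable {n : ℕ} {p : ℝ}

lemma pow_le_exp (_h0 : 0 ≤ p) (h1 : p ≤ 1) {p0 k0 : ℝ} (hp0 : 0 ≤ p0) (hp : p0 ≤ p) {k : ℕ}
    (hk : k0 ≤ k) : (1 - p) ^ k ≤ Real.exp (-(p0 * k0)) := by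
  calc (1 - p) ^ k ≤ (Real.exp (-p)) ^ k :=
        pow_le_pow_left₀ (by linarith) (Real.one_sub_le_exp_neg _) _
    _ = Real.exp (-(p * k)) := by rw [← Real.exp_nat_mul]; congr 1; ring
    _ ≤ Real.exp (-(p0 * k0)) := by
        apply Real.exp_le_exp.2
        have : p0 * k0 ≤ p * k := by
          calc p0 * k0 ≤ p0 * k := mul_le_mul_of_nonneg_left hk hp0
            _ ≤ p * k := mul_le_mul_of_nonneg_right hp (Nat.cast_nonneg _)
        linarith

lemma exp_neg_le {x : ℝ} (h0 : 0 ≤ x) (h1 : x ≤ 1) : Real.exp (-x) ≤ 1 - x / 2 := by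
  rw [Real.exp_neg]
  have h2 : 1 + x ≤ Real.exp x := by linarith [Real.add_one_le_exp x]
  have h3 : 0 < 1 + x := by linarith
  calc (Real.exp x)⁻¹ ≤ (1 + x)⁻¹ := inv_anti₀ h3 h2
    _ ≤ 1 - x / 2 := by
      rw [inv_le_iff_one_le_mul₀ h3]
      nlinarith

lemma half_bounds (hn : 8 ≤ n) : (n : ℝ) / 4 ≤ ((n / 2 : ℕ) : ℝ) - 1 ∧
    (n : ℝ) / 2 ≤ ((n - n / 2 : ℕ) : ℝ) ∧ (n : ℝ) / 2 ≤ ((n - 1 : ℕ) : ℝ) := by
  have h8 : (8 : ℝ) ≤ n := by exact_mod_cast hn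
  have h1 : (n : ℝ) ≤ 2 * ((n / 2 : ℕ) : ℝ) + 1 := by
    have : n ≤ 2 * (n / 2) + 1 := by omega
    exact_mod_cast this
  have h2 : (2 : ℝ) * ((n / 2 : ℕ) : ℝ) ≤ n := by
    have : 2 * (n / 2) ≤ n := by omega
    exact_mod_cast this
  refine ⟨by linarith, ?_, ?_⟩
  · rw [Nat.cast_sub (by omega)]
    linarith
  · rw [Nat.cast_sub (by omega), Nat.cast_one]
    linarith

lemma law_notG1 (h0 : 0 ≤ p) (h1 : p ≤ 1) {t p0 : ℝ} (ht : 1 ≤ t) (hn : 8 ≤ n) (htn : t ^ 3 = n)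
    (hp0 : p0 = 1 / (6 * t ^ 7)) (hp : p0 ≤ p) (σ : Equiv.Perm (Fin 4)) (a b : Fin n) :
    (law n 4 p).real {ω | ¬ G1 σ a b ω} ≤
      2 * Real.exp (-(t / 147456)) + t ^ 3 * Real.exp (-(t ^ 2 / 96)) := by
  classical
  have i1 := law_prob (n := n) (d := 4) h0 h1
  have ht0 : 0 < t := by linarith
  have hp00 : 0 ≤ p0 := by rw [hp0]; positivity
  obtain ⟨b1, b2, b3⟩ := half_bounds hn
  have hn0 : (0:ℝ) ≤ n := Nat.cast_nonneg _
  -- the two sizes
  have k1 : (n : ℝ) / 4 ≤ ((n / 2 : ℕ) : ℝ) := by linarith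
  have k2 : (n : ℝ) ^ 2 / 16 ≤ (((n - n / 2) * (n - 1) : ℕ) : ℝ) := by
    rw [Nat.cast_mul]
    nlinarith
  have k3 : (n : ℝ) ^ 3 / 16 ≤ ((n * ((n - n / 2) * (n - 1)) : ℕ) : ℝ) := by
    rw [Nat.cast_mul]
    nlinarith
  have x1 : p0 * (n / 4) ≤ 1 := by
    rw [hp0, ← htn]
    rw [div_mul_eq_mul_div, div_le_one (by positivity)]
    have : t ^ 3 ≤ t ^ 7 := pow_le_pow_right₀ ht (by norm_num)
    nlinarith [pow_pos ht0 7, pow_pos ht0 3]
  have x2 : p0 * (n ^ 2 / 16) ≤ 1 := by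
    rw [hp0, ← htn]
    rw [div_mul_eq_mul_div, div_le_one (by positivity), ← pow_mul]
    have : t ^ (3 * 2) ≤ t ^ 7 := pow_le_pow_right₀ ht (by norm_num)
    nlinarith [pow_pos ht0 7, pow_pos ht0 6]
  have y1 : p0 * (n / 4) / 2 ≤ 1 - (1 - p) ^ (n / 2) := by
    have := (pow_le_exp h0 h1 hp00 hp k1).trans (exp_neg_le (by positivity) x1)
    linarith
  have y2 : p0 * (n ^ 2 / 16) / 2 ≤ 1 - (1 - p) ^ ((n - n / 2) * (n - 1)) := by
    have := (pow_le_exp h0 h1 hp00 hp k2).trans (exp_neg_le (by positivity) x2)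
    linarith
  have z2 : (1 - p) ^ ((n - n / 2) * (n - 1)) ≤ 1 := pow_le_one₀ (by linarith) (by linarith)
  have z2' : 0 ≤ (1 - p) ^ ((n - n / 2) * (n - 1)) := pow_nonneg (by linarith) _
  have z1' : 0 ≤ (1 - p) ^ (n / 2) := pow_nonneg (by linarith) _
  set s' := (1 - (1 - p) ^ (n / 2)) * (1 - (1 - p) ^ ((n - n / 2) * (n - 1))) with hs'
  have hs : (p0 * (n / 4) / 2) * (p0 * (n ^ 2 / 16) / 2) ≤ s' :=
    mul_le_mul y1 y2 (by positivity) (le_trans (by positivity) y1)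
  have hs'1 : s' ≤ 1 := by
    rw [hs']
    exact mul_le_one₀ (by linarith) (by linarith) (by linarith)
  have key : ∀ T : Finset (Fin n × Fin n), (n : ℝ) ^ 2 / 16 ≤ (T.card : ℝ) →
      (law n 4 p).real {ω | ∀ i ∈ T, ¬ SL σ b i ω} ≤ Real.exp (-(t / 147456)) := by
    intro T hT
    refine (law_noSL h0 h1 T).trans ?_
    refine (pow_le_exp (p := s') (le_trans (by positivity) hs) hs'1 (by positivity) hs hT).trans ?_
    apply Real.exp_le_exp.2
    have e : p0 * (n / 4) / 2 * (p0 * (n ^ 2 / 16) / 2) * ((n:ℝ) ^ 2 / 16) = t / 147456 := by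
      rw [hp0, ← htn]
      field_simp
      ring
    rw [e]
  have hT1 : (n : ℝ) ^ 2 / 16 ≤ (((Lo n).erase a ×ˢ Lo n).card : ℝ) := by
    rw [card_product, Nat.cast_mul, card_Lo]
    have h1 : ((n / 2 : ℕ) : ℝ) - 1 ≤ (((Lo n).erase a).card : ℝ) := by
      have := pred_card_le_card_erase (s := Lo n) (a := a)
      rw [card_Lo] at this
      have h2 : n / 2 ≤ ((Lo n).erase a).card + 1 := by omega
      have h3 : ((n / 2 : ℕ) : ℝ) ≤ (((Lo n).erase a).card : ℝ) + 1 := by exact_mod_cast h2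
      linarith
    nlinarith
  have hT2 : (n : ℝ) ^ 2 / 16 ≤ (((Hi n).erase a ×ˢ Lo n).card : ℝ) := by
    rw [card_product, Nat.cast_mul, card_Lo]
    have h1 : ((n / 2 : ℕ) : ℝ) - 1 ≤ (((Hi n).erase a).card : ℝ) := by
      have := pred_card_le_card_erase (s := Hi n) (a := a)
      rw [card_Hi] at this
      have h2 : n / 2 ≤ ((Hi n).erase a).card + 1 := by omega
      have h3 : ((n / 2 : ℕ) : ℝ) ≤ (((Hi n).erase a).card : ℝ) + 1 := by exact_mod_cast h2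
      linarith
    nlinarith
  have hB : ∀ a' : Fin n, (law n 4 p).real {ω | ¬ SB σ b a' ω} ≤ Real.exp (-(t ^ 2 / 96)) := by
    intro a'
    rw [law_SB h0 h1]
    refine (pow_le_exp h0 h1 hp00 hp k3).trans (le_of_eq ?_)
    congr 2
    rw [hp0, ← htn]
    field_simp
    ring
  have hsub : {ω : V n 4 → Bool | ¬ G1 σ a b ω} ⊆
      {ω | ∀ i ∈ (Lo n).erase a ×ˢ Lo n, ¬ SL σ b i ω} ∪
      ({ω | ∀ i ∈ (Hi n).erase a ×ˢ Lo n, ¬ SL σ b i ω} ∪
        ⋃ a' ∈ (univ : Finset (Fin n)), {ω | ¬ SB σ b a' ω}) := by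
    intro ω hω
    by_contra hcon
    rw [Set.mem_union, Set.mem_union, not_or, not_or] at hcon
    obtain ⟨c1, c2, c3⟩ := hcon
    apply hω
    refine ⟨?_, ?_, ?_⟩
    · by_contra h
      exact c1 (fun i hi hS => h ⟨i, hi, hS⟩)
    · by_contra h
      exact c2 (fun i hi hS => h ⟨i, hi, hS⟩)
    · intro a'
      by_contra h
      apply c3
      rw [Set.mem_iUnion₂]
      exact ⟨a', mem_univ _, h⟩
  have hU : (law n 4 p).real (⋃ a' ∈ (univ : Finset (Fin n)), {ω | ¬ SB σ b a' ω}) ≤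
      t ^ 3 * Real.exp (-(t ^ 2 / 96)) := by
    refine (measureReal_biUnion_finset_le _ _).trans ?_
    refine (sum_le_sum fun a' _ => hB a').trans (le_of_eq ?_)
    rw [sum_const, card_univ, Fintype.card_fin, nsmul_eq_mul, htn]
  have f1 := measureReal_mono (μ := law n 4 p) hsub
  have f2 := f1.trans (measureReal_union_le _ _)
  have f3 := measureReal_union_le (μ := law n 4 p) {ω | ∀ i ∈ (Hi n).erase a ×ˢ Lo n, ¬ SL σ b i ω}
    (⋃ a' ∈ (univ : Finset (Fin n)), {ω | ¬ SB σ b a' ω})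
  have f4 := key _ hT1
  have f5 := key _ hT2
  linarith

lemma law_notGood (h0 : 0 ≤ p) (h1 : p ≤ 1) {t p0 : ℝ} (ht : 1 ≤ t) (hn : 8 ≤ n)
    (htn : t ^ 3 = n) (hp0 : p0 = 1 / (6 * t ^ 7)) (hp : p0 ≤ p) (σ : Equiv.Perm (Fin 4))
    (a b : Fin n) :
    (law n 4 p).real {ω | ¬ Good σ a b ω} ≤
      2 * (2 * Real.exp (-(t / 147456)) + t ^ 3 * Real.exp (-(t ^ 2 / 96))) := by
  have i1 := law_prob (n := n) (d := 4) h0 h1
  have hsub : {ω : V n 4 → Bool | ¬ Good σ a b ω} ⊆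
      {ω | ¬ G1 σ a b ω} ∪ {ω | ¬ G1 (σ.trans (Equiv.swap 2 3)) b a ω} := by
    intro ω hω
    by_contra hcon
    rw [Set.mem_union, not_or] at hcon
    apply hω
    exact ⟨by simpa using hcon.1, by simpa using hcon.2⟩
  have f1 := (measureReal_mono (μ := law n 4 p) hsub).trans (measureReal_union_le _ _)
  have f2 := law_notG1 h0 h1 ht hn htn hp0 hp σ a b
  have f3 := law_notG1 h0 h1 ht hn htn hp0 hp (σ.trans (Equiv.swap 2 3)) b a
  linarith

lemma tail_tendsto : Filter.Tendsto (fun t : ℝ =>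
    2 * (2 * Real.exp (-(t / 147456)) + t ^ 3 * Real.exp (-(t ^ 2 / 96)))) Filter.atTop
    (nhds 0) := by
  have h1 : Filter.Tendsto (fun t : ℝ => Real.exp (-(t / 147456))) Filter.atTop (nhds 0) := by
    apply Real.tendsto_exp_neg_atTop_nhds_zero.comp
    exact Filter.tendsto_id.atTop_div_const (by norm_num)
  have h2 : Filter.Tendsto (fun t : ℝ => t ^ 3 * Real.exp (-(t ^ 2 / 96))) Filter.atTop
      (nhds 0) := by
    have h3 := Real.tendsto_pow_mul_exp_neg_atTop_nhds_zero 3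
    refine squeeze_zero' ?_ ?_ h3
    · filter_upwards [Filter.eventually_ge_atTop 0] with t ht
      positivity
    · filter_upwards [Filter.eventually_ge_atTop 96] with t ht
      apply mul_le_mul_of_nonneg_left _ (by positivity)
      apply Real.exp_le_exp.2
      nlinarith
  have h4 := ((h1.const_mul 2).add h2).const_mul 2
  simpa using h4

end Pool.Agent.Helper76x.Ham
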