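import Mathlib
import Pool.Agent.Helper76x.HamNum

/-!
Bootstrap percolation on Hamming tori of dimension four, threshold three: critical values.
-/

set_option autoImplicit false

open Finset MeasureTheory ProbabilityTheory
open scoped ENNReal

namespace Pool.Agent.Helper76x.Ham

open Pool.Agent.R958.Ham

variable {n : ℕ} {p : ℝ}

/-- neighbours -/
noncomputable def nb (v : V n 4) : Finset (V n 4) := by
  classical exact univ.filter fun w => hammingDist v w = 1

lemma mem_nb {v w : V n 4} : w ∈ nb v ↔ hammingDist v w = 1 := by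
  unfold nb
  classical rw [mem_filter]
  simp

lemma card_nb (v : V n 4) : (nb v).card ≤ 4 * n := by
  classical
  have hsub : nb v ⊆ (univ : Finset (Fin 4 × Fin n)).image fun z => Function.update v z.1 z.2 := by
    intro w hw
    rw [mem_nb] at hw
    unfold hammingDist at hw
    rw [card_eq_one] at hw
    obtain ⟨k, hk⟩ := hw
    rw [mem_image]
    refine ⟨(k, w k), mem_univ _, ?_⟩
    funext j
    by_cases e : j = k
    · rw [e, Function.update_self]
    · rw [Function.update_of_ne e]
      by_contra h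
      have : j ∈ ({k} : Finset (Fin 4)) := by
        rw [← hk, mem_filter]; exact ⟨mem_univ _, h⟩
      exact e (mem_singleton.1 this)
  refine (card_le_card hsub).trans (card_image_le.trans ?_)
  rw [card_univ, Fintype.card_prod, Fintype.card_fin, Fintype.card_fin]

lemma three_of_plane (hn : 4 ≤ n) {ω : V n 4 → Bool} (h : SubgraphOpen 3 2 ω) :
    ∃ v, ∃ K ∈ powersetCard 3 (nb v), ∀ x ∈ K, ω x = true := by
  classical
  have key : ∃ v, 3 ≤ (univ.filter fun w => hammingDist v w = 1 ∧ ω w = true).card := by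
    by_contra hcon
    push Not at hcon
    have hstep : step 3 ω = ω := by
      funext v
      have := hcon v
      simp only [step]
      rw [decide_eq_false (by omega), Bool.or_false]
    have hfin : ∀ v, FinalOpen 3 ω v → ω v = true := by
      rintro v ⟨j, hj⟩
      rwa [Function.iterate_fixed hstep] at hj
    obtain ⟨J, hJ, a, ha⟩ := h
    obtain ⟨k, hk⟩ : J.Nonempty := card_pos.1 (by omega)
    have h1 : ((univ.erase (a k)).image fun y => Function.update a k y) ⊆
        univ.filter fun w => hammingDist a w = 1 ∧ ω w = true := by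
      intro w hw
      rw [mem_image] at hw
      obtain ⟨y, hy, rfl⟩ := hw
      rw [mem_filter]
      refine ⟨mem_univ _, ?_, ?_⟩
      · have := dist_update a k (x := a k) (y := y) (ne_of_mem_erase hy).symm
        rwa [Function.update_eq_self] at this
      · apply hfin
        apply ha
        intro l hl
        rw [Function.update_of_ne]
        rintro rfl
        exact hl hk
    have h2 := card_le_card h1
    rw [card_image_of_injective _ (Function.update_injective a k), card_erase_of_mem (mem_univ _),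
      card_univ, Fintype.card_fin] at h2
    have := hcon a
    omega
  obtain ⟨v, hv⟩ := key
  obtain ⟨K, hK, hK3⟩ := exists_subset_card_eq hv
  refine ⟨v, K, ?_, fun x hx => (mem_filter.1 (hK hx)).2.2⟩
  rw [mem_powersetCard]
  exact ⟨fun x hx => mem_nb.2 (mem_filter.1 (hK hx)).2.1, hK3⟩

lemma plane_le (hn : 4 ≤ n) (h0 : 0 ≤ p) (h1 : p ≤ 1) :
    (law n 4 p).real {ω | SubgraphOpen 3 2 ω} ≤ 64 * (n : ℝ) ^ 7 * p ^ 3 := by
  classical
  have i1 := law_prob (n := n) (d := 4) h0 h1
  have hsub : {ω : V n 4 → Bool | SubgraphOpen 3 2 ω} ⊆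
      ⋃ v ∈ (univ : Finset (V n 4)), ⋃ K ∈ powersetCard 3 (nb v), {ω | ∀ x ∈ K, ω x = true} := by
    intro ω hω
    obtain ⟨v, K, hK, hx⟩ := three_of_plane hn hω
    simp only [Set.mem_iUnion]
    exact ⟨v, mem_univ _, K, hK, hx⟩
  have hone : ∀ v : V n 4, ∀ K ∈ powersetCard 3 (nb v),
      (law n 4 p).real {ω | ∀ x ∈ K, ω x = true} ≤ p ^ 3 := by
    intro v K hK
    rw [measureReal_def, law_all h0 h1, (mem_powersetCard.1 hK).2, ENNReal.toReal_pow,
      ENNReal.toReal_ofReal h0]
  have htwo : ∀ v : V n 4, (law n 4 p).real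
      (⋃ K ∈ powersetCard 3 (nb v), {ω | ∀ x ∈ K, ω x = true}) ≤ 64 * (n : ℝ) ^ 3 * p ^ 3 := by
    intro v
    refine (measureReal_biUnion_finset_le _ _).trans ((sum_le_sum (hone v)).trans ?_)
    rw [sum_const, nsmul_eq_mul]
    apply mul_le_mul_of_nonneg_right _ (by positivity)
    have h2 : (powersetCard 3 (nb v)).card ≤ (4 * n) ^ 3 := by
      rw [card_powersetCard]
      exact (Nat.choose_le_pow _ _).trans (Nat.pow_le_pow_left (card_nb v) 3)
    calc ((powersetCard 3 (nb v)).card : ℝ) ≤ (((4 * n) ^ 3 : ℕ) : ℝ) := by exact_mod_cast h2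
      _ = 64 * (n : ℝ) ^ 3 := by push_cast; ring
  refine (measureReal_mono hsub (measure_ne_top _ _)).trans
    ((measureReal_biUnion_finset_le _ _).trans
    ((sum_le_sum fun v _ => htwo v).trans (le_of_eq ?_)))
  rw [sum_const, card_univ, Fintype.card_fun, Fintype.card_fin, Fintype.card_fin, nsmul_eq_mul]
  push_cast
  ring

/-- The critical values for a plane and for the whole torus agree up to the factor four. -/
theorem crit_compare : ∀ᶠ n : ℕ in Filter.atTop, ∀ p q, IsCritical n 4 3 2 p →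
    IsCritical n 4 3 4 q → 0 < p ∧ p ≤ q ∧ q ≤ 4 * p := by
  have hroot : Filter.Tendsto (fun n : ℕ => (n : ℝ) ^ (1 / 3 : ℝ)) Filter.atTop Filter.atTop :=
    (tendsto_rpow_atTop (by norm_num)).comp tendsto_natCast_atTop_atTop
  have htail := (tail_tendsto.comp hroot).eventually (ge_mem_nhds (show (0:ℝ) < 1 / 8 by norm_num))
  filter_upwards [htail, Filter.eventually_ge_atTop 8] with n hF hn p q hp hq
  simp only [Function.comp_apply] at hF
  set t : ℝ := (n : ℝ) ^ (1 / 3 : ℝ) with ht
  have hn1 : (1 : ℝ) ≤ n := by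
    have : (8:ℝ) ≤ n := by exact_mod_cast hn
    linarith
  have ht1 : 1 ≤ t := Real.one_le_rpow hn1 (by norm_num)
  have ht0 : 0 < t := by linarith
  have htn : t ^ 3 = n := by
    rw [ht, ← Real.rpow_natCast, ← Real.rpow_mul (by linarith)]
    norm_num
  obtain ⟨hp0, hp1, hp2⟩ := hp
  obtain ⟨hq0, hq1, hq2⟩ := hq
  have i1 := law_prob (n := n) (d := 4) hp0 hp1
  have i2 := law_prob (n := n) (d := 4) hq0 hq1
  -- lower bound for p
  have hpr : (law n 4 p).real {ω | SubgraphOpen 3 2 ω} = 1 / 2 := by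
    rw [measureReal_def, hp2]; simp
  have hlow := plane_le (n := n) (by omega) hp0 hp1
  rw [hpr] at hlow
  set p0 : ℝ := 1 / (6 * t ^ 7) with hp00
  have hpp0 : p0 ≤ p := by
    refine le_of_pow_le_pow_left₀ (n := 3) (by norm_num) hp0 ?_
    have h3 : (1:ℝ) / 128 ≤ (n : ℝ) ^ 7 * p ^ 3 := by linarith
    have h4 : p0 ^ 3 * (n : ℝ) ^ 7 = 1 / 216 := by
      rw [hp00, ← htn]
      field_simp
      norm_num
    have h5 : p0 ^ 3 * (n : ℝ) ^ 7 ≤ p ^ 3 * (n : ℝ) ^ 7 := by
      rw [h4]; linarith
    exact le_of_mul_le_mul_right h5 (by positivity)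
  have hppos : 0 < p := lt_of_lt_of_le (by rw [hp00]; positivity) hpp0
  -- sets
  set A : Set (V n 4 → Bool) := {ω | SubgraphOpen 3 2 ω} with hA
  set B : Set (V n 4 → Bool) := {ω | SubgraphOpen 3 4 ω} with hB
  have incA : Inc A := inc_subgraph 3 2
  have incB : Inc B := inc_subgraph 3 4
  have hBA : B ⊆ A := by
    rintro ω ⟨J, hJ, a, ha⟩
    have hJu : J = univ := by rw [← card_eq_iff_eq_univ, hJ, Fintype.card_fin]
    refine ⟨{0, 1}, by decide, a, fun x _ => ha x fun k hk => ?_⟩
    rw [hJu] at hk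
    exact absurd (mem_univ k) hk
  refine ⟨hppos, ?_, ?_⟩
  · apply lt_of_half (A := A) hq0 hp1 incA
    · exact ⟨{0, 1}, by decide, fun _ => ⟨0, by omega⟩, fun x _ => final_of_init rfl⟩
    · rw [← hq2]; exact measure_mono hBA
    · rw [hp2]
  · -- three copies
    set a2 : ℝ := 1 - (1 - p) * (1 - p) with ha2
    set a3 : ℝ := 1 - (1 - a2) * (1 - p) with ha3
    set a4 : ℝ := 1 - (1 - a3) * (1 - p) with ha4
    have a20 : 0 ≤ a2 := by nlinarith
    have a21 : a2 ≤ 1 := by nlinarith
    have a30 : 0 ≤ a3 := by nlinarith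
    have a31 : a3 ≤ 1 := by nlinarith
    have a40 : 0 ≤ a4 := by nlinarith
    have a41 : a4 ≤ 1 := by nlinarith
    have i3 := law_prob (n := n) (d := 4) a30 a31
    have hcp : law n 4 p Aᶜ ≤ 1 / 2 := by
      rw [prob_compl_eq_one_sub (Set.toFinite _).measurableSet, hp2]
      simp
    have hc2 : law n 4 a2 Aᶜ ≤ 1 / 2 * (1 / 2) :=
      (compl_or_le hp0 hp1 hp0 hp1 incA).trans (mul_le_mul' hcp hcp)
    have hc3 : law n 4 a3 Aᶜ ≤ 1 / 2 * (1 / 2) * (1 / 2) :=
      (compl_or_le a20 a21 hp0 hp1 incA).trans (mul_le_mul' hc2 hcp)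
    have hr3 : (law n 4 a3).real Aᶜ ≤ 1 / 8 := by
      rw [measureReal_def]
      refine (ENNReal.toReal_mono (by finiteness) hc3).trans (le_of_eq ?_)
      rw [ENNReal.toReal_mul, ENNReal.toReal_mul]
      simp only [ENNReal.toReal_div, ENNReal.toReal_one, ENNReal.toReal_ofNat]
      norm_num
    have hA3 : 7 / 8 ≤ (law n 4 a3).real A := by
      rw [probReal_compl_eq_one_sub (Set.toFinite _).measurableSet] at hr3
      linarith
    have hspr : ∀ ω ∈ A, ENNReal.ofReal (7 / 8) ≤ law n 4 p {ω' | uni ω ω' ∈ B} := by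
      intro ω hω
      obtain ⟨σ, a, b, hP⟩ := plane_form hω
      have h1 := law_notGood hp0 hp1 ht1 hn htn hp00 hpp0 σ a b
      have h2 : 7 / 8 ≤ (law n 4 p).real {ω' | Good σ a b ω'} := by
        have h3 : (law n 4 p).real {ω' | Good σ a b ω'}ᶜ ≤ 1 / 8 := h1.trans hF
        rw [probReal_compl_eq_one_sub (Set.toFinite _).measurableSet] at h3
        linarith
      have h3 : {ω' | Good σ a b ω'} ⊆ {ω' | uni ω ω' ∈ B} := by
        intro ω' hG
        refine ⟨univ, by rw [card_univ, Fintype.card_fin], fun _ => ⟨0, by omega⟩, fun x _ => ?_⟩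
        refine full_of (σ := σ) (a := a) (b := b) (ω' := ω') ?_ ?_ hG x
        · intro x hx
          exact final_of_init (by simp [uni, hx])
        · intro x y
          exact final_mono (fun x hx => by simp [uni, hx]) (hP x y)
      refine le_trans ?_ (measure_mono h3)
      rw [measureReal_def] at h2
      exact ENNReal.ofReal_le_of_le_toReal h2
    have hfin := sprinkle (n := n) (d := 4) a30 a31 hp0 hp1 hspr
    have hbig : 1 / 2 < law n 4 a4 B := by
      refine lt_of_lt_of_le ?_ hfin
      have h1 : ENNReal.ofReal (7 / 8) ≤ law n 4 a3 A := by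
        rw [measureReal_def] at hA3
        exact ENNReal.ofReal_le_of_le_toReal hA3
      refine lt_of_lt_of_le ?_ (mul_le_mul' le_rfl h1)
      rw [← ENNReal.ofReal_mul (by norm_num)]
      have h2 : (1 / 2 : ℝ≥0∞) = ENNReal.ofReal (1 / 2) := by
        rw [ENNReal.ofReal_div_of_pos (by norm_num)]; simp
      rw [h2]
      exact (ENNReal.ofReal_lt_ofReal_iff (by norm_num)).2 (by norm_num)
    have hqa : q ≤ a4 := by
      by_contra hcon
      rw [not_le] at hcon
      have h1 := law_mono (n := n) (d := 4) a40 hcon.le hq1 incB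
      rw [hq2] at h1
      exact absurd hbig (not_lt.2 h1)
    refine hqa.trans ?_
    have e : a4 = 1 - (1 - p) ^ 4 := by rw [ha4, ha3, ha2]; ring
    rw [e]
    have h2 := one_add_mul_le_pow (a := -p) (by linarith) 4
    have h3 : (1 + -p) ^ 4 = (1 - p) ^ 4 := by ring
    rw [h3] at h2
    push_cast at h2
    linarith

/-- critical values are unique -/
theorem crit_unique {n d θ i : ℕ} (hn : 1 ≤ n) (hi : i ≤ d) {p q : ℝ}
    (hp : IsCritical n d θ i p) (hq : IsCritical n d θ i q) : p = q := by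
  have key : ∀ {p q : ℝ}, IsCritical n d θ i p → IsCritical n d θ i q → q ≤ p := by
    intro p q hp hq
    obtain ⟨hp0, hp1, hp2⟩ := hp
    obtain ⟨hq0, hq1, hq2⟩ := hq
    refine lt_of_half (A := {ω : V n d → Bool | SubgraphOpen θ i ω}) hp0 hq1
      (inc_subgraph θ i) ?_ (le_of_eq hp2.symm) (le_of_eq hq2)
    obtain ⟨J, _, hJ⟩ := exists_subset_card_eq (s := (univ : Finset (Fin d))) (n := i)
      (by rw [card_univ, Fintype.card_fin]; exact hi)
    exact ⟨J, hJ, fun _ => ⟨0, by omega⟩, fun x _ => final_of_init rfl⟩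
  exact le_antisymm (key hq hp) (key hp hq)

end Pool.Agent.Helper76x.Ham
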